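import Pool.Agent.K9h73.RM.Core
import Pool.Agent.K9h73.RM.Arc

/-!
# The reflection inequality for the conformal modulus of joining curve families

For every `n ≥ 2` and all non-empty compact sets `E` in the open upper half-space and `F` in the
open lower half-space of `ℝⁿ`, `M(Δ(E, F)) ≤ M(Δ(E, F*))`, where `F*` is the reflection of `F` in
the hyperplane `x_n = 0`.

The proof polarizes the distance function of a continuous almost optimal density of `Δ(E, F*)`.
-/

set_option autoImplicit false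

open MeasureTheory Set Filter Topology
open scoped ENNReal NNReal

namespace Pool.Agent.Results.MP_69cc0b_an.ReflectionInequality

/-- `ℝⁿ` -/
abbrev E (n : ℕ) : Type := EuclideanSpace ℝ (Fin n)

/-- the index of the last coordinate `x_n` -/
def lastIdx {n : ℕ} (hn : 2 ≤ n) : Fin n := ⟨n - 1, by omega⟩

/-- the open upper half-space `x_n > 0` -/
def upper {n : ℕ} (hn : 2 ≤ n) : Set (E n) := {x | 0 < x (lastIdx hn)}

/-- the open lower half-space `x_n < 0` -/
def lower {n : ℕ} (hn : 2 ≤ n) : Set (E n) := {x | x (lastIdx hn) < 0}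

/-- the reflection `(x_1, …, x_{n-1}, x_n) ↦ (x_1, …, x_{n-1}, -x_n)` -/
noncomputable def reflect {n : ℕ} (hn : 2 ≤ n) (x : E n) : E n :=
  WithLp.toLp 2 (fun i => if i = lastIdx hn then -x i else x i)

/-- A curve in `ℝⁿ ∪ {∞}`: a continuous map of a closed interval `[a, b]`. -/
structure Curve (n : ℕ) where
  /-- left end point of the parameter interval -/
  a : ℝ
  /-- right end point of the parameter interval -/
  b : ℝ
  le : a ≤ b
  /-- the map; only its values on `[a, b]` matter -/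
  map : ℝ → OnePoint (E n)
  cont : ContinuousOn map (Icc a b)

/-- `Δ(A, B)`: all curves in `ℝⁿ ∪ {∞}` which start in `A` and end in `B` -/
def Delta {n : ℕ} (A B : Set (OnePoint (E n))) : Set (Curve n) :=
  {γ | γ.map γ.a ∈ A ∧ γ.map γ.b ∈ B}

/-- the curve stays in `ℝⁿ` -/
def Curve.InSpace {n : ℕ} (γ : Curve n) : Prop := ∀ t ∈ Icc γ.a γ.b, γ.map t ≠ OnePoint.infty

/-- `γ(t)` as a point of `ℝⁿ` (with the dummy value `0` at times when `γ(t) = ∞`) -/
def Curve.pt {n : ℕ} (γ : Curve n) (t : ℝ) : E n := (γ.map t).elim 0 id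

/-- `[c, d]` is a compact subinterval of `[a, b]` on which `γ` stays in `ℝⁿ` -/
def Curve.Sub {n : ℕ} (γ : Curve n) (c d : ℝ) : Prop :=
  γ.a ≤ c ∧ c ≤ d ∧ d ≤ γ.b ∧ ∀ t ∈ Icc c d, γ.map t ≠ OnePoint.infty

/-- `γ` is locally rectifiable: all its compact subcurves in `ℝⁿ` have finite length -/
def Curve.LocRect {n : ℕ} (γ : Curve n) : Prop :=
  ∀ c d, γ.Sub c d → BoundedVariationOn γ.pt (Icc c d)

/-- the integral of `ρ` over the subcurve `γ|[c,d]` with respect to arc length, that is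
`∫_0^ℓ ρ(γ°(s)) ds` for the arc-length parametrization `γ°` on `[0, ℓ]` -/
noncomputable def Curve.subIntegral {n : ℕ} (γ : Curve n) (ρ : E n → ℝ≥0∞) (c d : ℝ) : ℝ≥0∞ :=
  ∫⁻ s in Icc 0 (variationOnFromTo γ.pt (Icc c d) c d),
    ρ (naturalParameterization γ.pt (Icc c d) c s)

/-- `∫_γ ρ ds`: the supremum of the integrals over the compact subcurves in `ℝⁿ` (for a curve in
`ℝⁿ` this is the integral over the whole curve) -/
noncomputable def Curve.integral {n : ℕ} (γ : Curve n) (ρ : E n → ℝ≥0∞) : ℝ≥0∞ :=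
  ⨆ (c : ℝ) (d : ℝ) (_ : γ.Sub c d), γ.subIntegral ρ c d

/-- the `n`-modulus of a curve family -/
noncomputable def modulus {n : ℕ} (Γ : Set (Curve n)) : ℝ≥0∞ :=
  ⨅ (ρ : E n → ℝ≥0∞) (_ : Measurable ρ) (_ : ∀ γ ∈ Γ, γ.LocRect → 1 ≤ γ.integral ρ),
    ∫⁻ x, ρ x ^ n

/-- the points of a subset of `ℝⁿ` as points of `ℝⁿ ∪ {∞}` -/
def inBar {n : ℕ} (A : Set (E n)) : Set (OnePoint (E n)) := (fun x : E n => (x : OnePoint (E n))) '' A

/-! ## proofs -/

theorem modulus_mono {n : ℕ} {Γ Γ' : Set (Curve n)} (h : Γ ⊆ Γ') : modulus Γ ≤ modulus Γ' := by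
  unfold modulus
  refine le_iInf fun ρ => le_iInf fun hρ => le_iInf fun hadm => ?_
  exact iInf_le_of_le ρ (iInf_le_of_le hρ (iInf_le_of_le (fun γ hγ => hadm γ (h hγ)) le_rfl))

theorem integral_full {n : ℕ} (γ : Curve n) {c d : ℝ} (h : γ.Sub c d) (ρ : E n → ℝ≥0∞) :
    γ.subIntegral ρ c d ≤ γ.integral ρ := by
  unfold Curve.integral
  exact le_iSup_of_le c (le_iSup_of_le d (le_iSup_of_le h le_rfl))

/-- the linear isometry behind `reflect` -/
noncomputable def reflectL {n : ℕ} (hn : 2 ≤ n) : E n ≃ₗᵢ[ℝ] E n :=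
  LinearIsometryEquiv.piLpCongrRight 2
    (fun i => if i = lastIdx hn then LinearIsometryEquiv.neg ℝ else LinearIsometryEquiv.refl ℝ ℝ)

theorem reflectL_apply {n : ℕ} (hn : 2 ≤ n) (x : E n) : reflectL hn x = reflect hn x := by
  ext i
  by_cases h : i = lastIdx hn
  · simp [reflectL, reflect, h]
  · simp [reflectL, reflect, h]

theorem reflect_eq {n : ℕ} (hn : 2 ≤ n) : (reflect hn : E n → E n) = reflectL hn := by
  funext x; exact (reflectL_apply hn x).symm

theorem refl_struct {n : ℕ} (hn : 2 ≤ n) :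
    K9h73.RM.Refl (reflect hn) (fun x : E n => x (lastIdx hn)) where
  isom x y := by
    rw [reflect_eq, ← map_sub, LinearIsometryEquiv.norm_map]
  invol x := by
    ext i
    by_cases h : i = lastIdx hn
    · simp [reflect, h]
    · simp [reflect, h]
  side_neg x := by simp [reflect]
  side_zero x h := by
    ext i
    by_cases hi : i = lastIdx hn
    · subst hi; simp only [reflect, if_true]; rw [h]; simp
    · simp [reflect, hi]
  dist_side x := by
    have h : x - reflect hn x = EuclideanSpace.single (lastIdx hn) (2 * x (lastIdx hn)) := by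
      ext i
      by_cases hi : i = lastIdx hn
      · subst hi; simp [reflect]; ring
      · simp [reflect, hi]
    rw [h, PiLp.norm_single, Real.norm_eq_abs, abs_mul, abs_two]
  side_lip x y := by
    have := PiLp.norm_apply_le (x - y) (lastIdx hn)
    simpa using this

theorem reflect_norm {n : ℕ} (hn : 2 ≤ n) (x : E n) : ‖reflect hn x‖ = ‖x‖ := by
  rw [reflect_eq, LinearIsometryEquiv.norm_map]

theorem coe_pt {n : ℕ} (γ : Curve n) {s : ℝ} (h : γ.map s ≠ OnePoint.infty) :
    ((γ.pt s : E n) : OnePoint (E n)) = γ.map s := by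
  unfold Curve.pt
  obtain ⟨x, hx⟩ := OnePoint.ne_infty_iff_exists.1 h
  rw [← hx]
  simp

/-- continuity of a subcurve in `ℝⁿ` -/
theorem pt_cont {n : ℕ} (γ : Curve n) {c d : ℝ} (h : γ.Sub c d) : ContinuousOn γ.pt (Icc c d) := by
  have h1 : ContinuousOn γ.map (Icc c d) := γ.cont.mono (Icc_subset_Icc h.1 h.2.2.1)
  intro t ht
  have h2 := h1 t ht
  rw [OnePoint.isOpenEmbedding_coe.isInducing.continuousWithinAt_iff]
  refine h2.congr (fun s hs => ?_) ?_
  · exact coe_pt γ (h.2.2.2 s hs)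
  · exact coe_pt γ (h.2.2.2 t ht)

/-- a `1`-Lipschitz parametrization of a compact subcurve -/
theorem exists_param {n : ℕ} (γ : Curve n) (hγ : γ.LocRect) {c d : ℝ} (h : γ.Sub c d) :
    ∃ (L : ℝ) (g : ℝ → E n), 0 ≤ L ∧ LipschitzWith 1 g ∧ g 0 = γ.pt c ∧ g L = γ.pt d ∧
      ∀ ρ : E n → ℝ≥0∞, γ.subIntegral ρ c d = ∫⁻ t in Icc 0 L, ρ (g t) := by
  obtain ⟨g, hg1, hg2, hg3⟩ := K9h73.RM.exists_arc h.2.1 (pt_cont γ h) (hγ c d h)
  refine ⟨variationOnFromTo γ.pt (Icc c d) c d, g,
    variationOnFromTo.nonneg_of_le _ _ h.2.1, hg1, ?_, ?_, ?_⟩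
  · have := hg3 c (left_mem_Icc.2 h.2.1)
    rwa [variationOnFromTo.self] at this
  · exact hg3 d (right_mem_Icc.2 h.2.1)
  · intro ρ
    unfold Curve.subIntegral
    apply setLIntegral_congr_fun measurableSet_Icc
    intro s hs
    simp only [hg2 s hs]

/-- admissible densities, tested on `1`-Lipschitz curves -/
theorem lip_admissible {n : ℕ} {A B : Set (E n)} {ρ : E n → ℝ≥0∞} (hρ : Measurable ρ)
    (hadm : ∀ γ ∈ {γ ∈ Delta (inBar A) (inBar B) | γ.InSpace}, γ.LocRect → 1 ≤ γ.integral ρ)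
    (T : ℝ) (c : ℝ → E n) (hc : K9h73.RM.IsCurve A B T c) : 1 ≤ ∫⁻ t in Icc 0 T, ρ (c t) := by
  set γ : Curve n := ⟨0, T, hc.nonneg, fun t => (c t : OnePoint (E n)),
    (OnePoint.continuous_coe.comp hc.lip.continuous).continuousOn⟩ with hγ
  have hpt : γ.pt = c := by
    funext t; simp [Curve.pt, hγ]
  have h1 : γ ∈ {γ ∈ Delta (inBar A) (inBar B) | γ.InSpace} :=
    ⟨⟨mem_image_of_mem _ hc.start, mem_image_of_mem _ hc.fin⟩, fun t _ => OnePoint.coe_ne_infty _⟩
  have h2 : γ.LocRect := by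
    intro p q _
    rw [hpt]
    have := hc.lip.comp_boundedVariationOn (g := fun t : ℝ => t) (s := Icc p q)
      (BoundedVariationOn.id_Icc p q)
    exact this
  refine (hadm γ h1 h2).trans ?_
  unfold Curve.integral
  refine iSup_le fun p => iSup_le fun q => iSup_le fun hpq => ?_
  unfold Curve.subIntegral
  rw [hpt]
  refine (K9h73.RM.arc_integral_le hc.lip hpq.2.1 hρ).trans ?_
  exact lintegral_mono_set (Icc_subset_Icc hpq.1 hpq.2.2.1)

/-- the inequality in its strongest form: on the left all curves, on the right only those which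
stay in `ℝⁿ` -/
theorem main_ineq {n : ℕ} (hn : 2 ≤ n) {A B : Set (E n)} (hA0 : A.Nonempty) (hA : IsCompact A)
    (hB : IsCompact B) (hAu : A ⊆ upper hn) (hBl : B ⊆ lower hn) :
    modulus (Delta (inBar A) (inBar B)) ≤
      modulus {γ ∈ Delta (inBar A) (inBar (reflect hn '' B)) | γ.InSpace} := by
  have : Nonempty (Fin n) := ⟨lastIdx hn⟩
  refine le_iInf fun ρ => le_iInf fun hρ => le_iInf fun hadm => ?_
  refine le_of_forall_gt_imp_ge_of_dense fun b hb => ?_
  have hmp : MeasurePreserving (reflect hn : E n → E n) volume volume := by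
    rw [reflect_eq]; exact (reflectL hn).measurePreserving
  obtain ⟨ρ', hρ'm, hρ'b, h1, R, h2⟩ := K9h73.RM.core (volume : Measure (E n))
    (finrank_euclideanSpace_fin) hn (refl_struct hn) (reflect_norm hn) hmp hA0 hA hB
    (fun x hx => hAu hx) (fun x hx => hBl hx) hρ (lip_admissible hρ hadm) hb
  refine le_trans ?_ hρ'b
  refine iInf_le_of_le ρ' (iInf_le_of_le hρ'm (iInf_le_of_le ?_ le_rfl))
  intro γ hγ hrect
  obtain ⟨⟨xa, hxa, hxa'⟩, ⟨xb, hxb, hxb'⟩⟩ := hγ
  have hpa : γ.pt γ.a = xa := by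
    unfold Curve.pt; rw [← hxa']; simp
  have hpb : γ.pt γ.b = xb := by
    unfold Curve.pt; rw [← hxb']; simp
  by_cases hin : γ.InSpace
  · have hsub : γ.Sub γ.a γ.b := ⟨le_rfl, γ.le, le_rfl, hin⟩
    obtain ⟨L, g, hL, hg, hg0, hgL, hint⟩ := exists_param γ hrect hsub
    refine le_trans ?_ (integral_full γ hsub ρ')
    rw [hint]
    apply h1 L g
    refine ⟨hL, hg, ?_, ?_⟩
    · rw [hg0, hpa]; exact hxa
    · rw [hgL, hpb]; exact hxb
  · -- the curve passes through `∞`
    unfold Curve.InSpace at hin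
    push Not at hin
    obtain ⟨t0, ht0, ht0'⟩ := hin
    set S := Icc γ.a γ.b ∩ γ.map ⁻¹' {OnePoint.infty} with hS
    have hScl : IsClosed S := by
      apply γ.cont.preimage_isClosed_of_isClosed isClosed_Icc
      exact OnePoint.isClosed_infty
    have hScomp : IsCompact S := isCompact_Icc.of_isClosed_subset hScl inter_subset_left
    have hSne : S.Nonempty := ⟨t0, ht0, ht0'⟩
    obtain ⟨t1, ht1, ht1'⟩ := hScomp.exists_isLeast hSne
    have hat1 : γ.a < t1 := by
      refine lt_of_le_of_ne ht1.1.1 ?_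
      intro h
      have h3 : γ.map γ.a = OnePoint.infty := by rw [h]; exact ht1.2
      rw [← hxa'] at h3
      exact OnePoint.coe_ne_infty _ h3
    have hopen : IsOpen (((fun x : E n => (x : OnePoint (E n))) '' Metric.closedBall (0 : E n) R)ᶜ) :=
      OnePoint.isOpen_compl_image_coe.2 ⟨Metric.isClosed_closedBall, isCompact_closedBall _ _⟩
    have hmem : ((fun x : E n => (x : OnePoint (E n))) '' Metric.closedBall (0 : E n) R)ᶜ ∈
        𝓝 (γ.map t1) := by
      rw [show γ.map t1 = OnePoint.infty from ht1.2]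
      exact hopen.mem_nhds OnePoint.infty_notMem_image_coe
    have hev : ∀ᶠ t in 𝓝[Ico γ.a t1] t1,
        γ.map t ∈ ((fun x : E n => (x : OnePoint (E n))) '' Metric.closedBall (0 : E n) R)ᶜ := by
      have h3 := (γ.cont t1 ht1.1).eventually hmem
      have h4 : Ico γ.a t1 ⊆ Icc γ.a γ.b := fun t ht => ⟨ht.1, ht.2.le.trans ht1.1.2⟩
      exact h3.filter_mono (nhdsWithin_mono _ h4)
    have hne : (𝓝[Ico γ.a t1] t1).NeBot := by
      rw [← mem_closure_iff_nhdsWithin_neBot, closure_Ico hat1.ne]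
      exact right_mem_Icc.2 hat1.le
    obtain ⟨d, hd1, hd2⟩ := (hev.and self_mem_nhdsWithin).exists
    have hsub : γ.Sub γ.a d := by
      refine ⟨le_rfl, hd2.1, hd2.2.le.trans ht1.1.2, fun t ht h => ?_⟩
      have h3 : t ∈ S := ⟨⟨ht.1, ht.2.trans (hd2.2.le.trans ht1.1.2)⟩, h⟩
      have h4 := ht1' h3
      linarith [ht.2, hd2.2]
    have hnorm : R ≤ ‖γ.pt d‖ := by
      by_contra h3
      apply hd1
      refine ⟨γ.pt d, ?_, ?_⟩
      · rw [mem_closedBall_zero_iff]; exact (not_le.1 h3).le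
      · exact coe_pt γ (hsub.2.2.2 d (right_mem_Icc.2 hd2.1))
    obtain ⟨L, g, hL, hg, hg0, hgL, hint⟩ := exists_param γ hrect hsub
    refine le_trans ?_ (integral_full γ hsub ρ')
    rw [hint]
    apply h2 L g hg
    · rw [hg0, hpa]; exact hxa
    · exact ⟨L, right_mem_Icc.2 hL, by rw [hgL]; exact hnorm⟩

/-- **Reflection inequality for the modulus.** For every `n ≥ 2` and all non-empty compact sets
`A` in the open upper and `B` in the open lower half-space of `ℝⁿ`, with `B*` the reflection of `B`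
in the hyperplane `x_n = 0`, `M(Δ(A, B)) ≤ M(Δ(A, B*))`. The inequality holds both when curves
through `∞` are taken into account and when only the curves in `ℝⁿ` are. -/
theorem result (n : ℕ) (hn : 2 ≤ n) (A B : Set (E n)) (hA0 : A.Nonempty) (hB0 : B.Nonempty)
    (hA : IsCompact A) (hB : IsCompact B) (hAu : A ⊆ upper hn) (hBl : B ⊆ lower hn) :
    modulus (Delta (inBar A) (inBar B)) ≤ modulus (Delta (inBar A) (inBar (reflect hn '' B))) ∧
    modulus {γ ∈ Delta (inBar A) (inBar B) | γ.InSpace} ≤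
      modulus {γ ∈ Delta (inBar A) (inBar (reflect hn '' B)) | γ.InSpace} := by
  have _ := hB0
  have h := main_ineq hn hA0 hA hB hAu hBl
  exact ⟨h.trans (modulus_mono fun γ hγ => hγ.1), (modulus_mono fun γ hγ => hγ.1).trans h⟩

end Pool.Agent.Results.MP_69cc0b_an.ReflectionInequality
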